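import Pool.Agent.H88.WR.Targets

/-!
# Row DOM of wmr_modules: renormings of the domain
-/

set_option autoImplicit false

namespace Pool.Agent.H20.WR

open Filter Topology Set Pool.Agent.H85.WMP Pool.Agent.H88.WR

theorem tends_an : Tendsto (fun n : ℕ => 1 - 1 / ((n : ℝ) + 2)) atTop (𝓝 1) := by
  have h1 : Tendsto (fun n : ℕ => (n : ℝ) + 2) atTop atTop :=
    tendsto_natCast_atTop_atTop.atTop_add tendsto_const_nhds
  have h2 := (tendsto_const_nhds (x := (1 : ℝ))).sub (h1.inv_tendsto_atTop)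
  simpa [one_div] using h2

theorem pf_DOM (𝕜 : Type) [RCLike 𝕜] (hRED : T_RED 𝕜) : T_DOM 𝕜 := by
  intro E _ _ F _ _ hAWD T x C δ hδ hxC hxw hTx
  -- the functional `us` and the operator `S`
  have hu0 : x 0 ≠ 0 := by
    intro h0
    have := hTx 0
    rw [h0, map_zero, norm_zero] at this
    linarith
  obtain ⟨u, hu⟩ : ∃ u, u = x 0 := ⟨_, rfl⟩
  rw [← hu] at hu0
  obtain ⟨g, -, hgu⟩ := exists_dual_vector 𝕜 u (norm_ne_zero_iff.2 hu0)
  have hun : 0 < ‖u‖ := norm_pos_iff.2 hu0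
  obtain ⟨us, hus⟩ : ∃ us : StrongDual 𝕜 E, us u = 1 := by
    refine ⟨((‖u‖ : ℝ) : 𝕜)⁻¹ • g, ?_⟩
    show ((‖u‖ : ℝ) : 𝕜)⁻¹ * g u = 1
    rw [hgu]
    refine inv_mul_cancel₀ ?_
    exact_mod_cast hun.ne'
  obtain ⟨S, hS⟩ : ∃ S : E →L[𝕜] F, ∀ v, S v = T v - us v • T u :=
    ⟨T - us.smulRight (T u), fun v => rfl⟩
  have hSu : S u = 0 := by rw [hS, hus, one_smul, sub_self]
  have hC0 : 0 ≤ C := (norm_nonneg _).trans (hxC 0)
  -- the first change of the sequence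
  obtain ⟨y, hy⟩ : ∃ y : ℕ → E, ∀ n, y n = x n - us (x n) • u := ⟨_, fun _ => rfl⟩
  have hyw : WeaklyNull 𝕜 y := by
    intro f
    have h1 := (hxw f).sub ((hxw us).mul_const (f u))
    rw [zero_mul, sub_zero] at h1
    refine h1.congr fun n => ?_
    rw [hy, map_sub, map_smul, smul_eq_mul]
  have hyu : ∀ n, us (y n) = 0 := fun n => by
    rw [hy, map_sub, map_smul, hus, smul_eq_mul, mul_one, sub_self]
  obtain ⟨D, hD⟩ : ∃ D, D = C + ‖us‖ * C * ‖u‖ := ⟨_, rfl⟩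
  have hD0 : 0 ≤ D := by
    rw [hD]
    positivity
  have hyD : ∀ n, ‖y n‖ ≤ D := by
    intro n
    rw [hy, hD]
    refine (norm_sub_le _ _).trans (add_le_add (hxC n) ?_)
    rw [norm_smul]
    refine mul_le_mul_of_nonneg_right ?_ hun.le
    exact (us.le_opNorm _).trans (mul_le_mul_of_nonneg_left (hxC n) (norm_nonneg _))
  have hSy : ∀ n, S (y n) = T (x n) - us (x n) • T u := fun n => by
    rw [hS, hyu, zero_smul, sub_zero, hy, map_sub, map_smul]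
  obtain ⟨n0, hn0⟩ : ∃ n0, ∀ n, n0 ≤ n → δ / 2 ≤ ‖S (y n)‖ := by
    have h1 : Tendsto (fun n => ‖us (x n) • T u‖) atTop (𝓝 0) := by
      have h2 := ((hxw us).norm).mul_const ‖T u‖
      rw [norm_zero, zero_mul] at h2
      refine h2.congr fun n => ?_
      rw [norm_smul]
    obtain ⟨n0, h3⟩ := eventually_atTop.1 (h1.eventually_le_const (half_pos hδ))
    refine ⟨n0, fun n hn => ?_⟩
    rw [hSy]
    have h4 := norm_sub_norm_le (T (x n)) (us (x n) • T u)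
    linarith [h3 n hn, hTx n]
  -- the second change of the sequence
  have hpos : ∀ n, 0 < ‖S (y (n + n0))‖ := fun n =>
    lt_of_lt_of_le (half_pos hδ) (hn0 _ (Nat.le_add_left _ _))
  obtain ⟨t, ht⟩ : ∃ t : ℕ → E, ∀ n, t n = ((‖S (y (n + n0))‖⁻¹ : ℝ) : 𝕜) • y (n + n0) :=
    ⟨_, fun _ => rfl⟩
  have hinv : ∀ n, ‖((‖S (y (n + n0))‖⁻¹ : ℝ) : 𝕜)‖ ≤ 2 / δ := by
    intro n
    rw [RCLike.norm_ofReal, abs_of_pos (inv_pos.2 (hpos n))]
    rw [inv_le_comm₀ (hpos n) (by positivity)]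
    rw [inv_div]
    exact hn0 _ (Nat.le_add_left _ _)
  have htD : ∀ n, ‖t n‖ ≤ 2 / δ * D := fun n => by
    rw [ht, norm_smul]
    exact mul_le_mul (hinv n) (hyD _) (norm_nonneg _) (by positivity)
  have htw : WeaklyNull 𝕜 t := by
    intro f
    have h1 : Tendsto (fun n => f (y (n + n0))) atTop (𝓝 0) :=
      (hyw f).comp (tendsto_add_atTop_nat n0)
    have h2 := (h1.norm).const_mul (2 / δ)
    rw [norm_zero, mul_zero] at h2
    refine squeeze_zero_norm (fun n => ?_) h2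
    rw [ht, map_smul, norm_smul]
    exact mul_le_mul_of_nonneg_right (hinv n) (norm_nonneg _)
  have hSt : ∀ n, ‖S (t n)‖ = 1 := fun n => by
    rw [ht, map_smul, norm_smul, RCLike.norm_ofReal, abs_of_pos (inv_pos.2 (hpos n)),
      inv_mul_cancel₀ (hpos n).ne']
  have htu : ∀ n, us (t n) = 0 := fun n => by rw [ht, map_smul, hyu, smul_zero]
  -- the sequence `z`
  obtain ⟨a, ha⟩ : ∃ a : ℕ → ℝ, ∀ n, a n = 1 - 1 / ((n : ℝ) + 2) := ⟨_, fun _ => rfl⟩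
  have ha1 : ∀ n, a n < 1 := fun n => by
    rw [ha]
    have : 0 < 1 / ((n : ℝ) + 2) := by positivity
    linarith
  have ha2 : ∀ n, 1 / 2 ≤ a n := fun n => by
    rw [ha]
    have h1 : 1 / ((n : ℝ) + 2) ≤ 1 / 2 := by
      apply one_div_le_one_div_of_le (by norm_num)
      have : (0 : ℝ) ≤ n := Nat.cast_nonneg n
      linarith
    linarith
  have ha0 : ∀ n, 0 < a n := fun n => lt_of_lt_of_le (by norm_num) (ha2 n)
  have hamono : ∀ n k, n ≤ k → a n ≤ a k := fun n k hnk => by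
    rw [ha, ha]
    have h1 : 1 / ((k : ℝ) + 2) ≤ 1 / ((n : ℝ) + 2) := by
      apply one_div_le_one_div_of_le (by positivity)
      have : (n : ℝ) ≤ k := Nat.cast_le.2 hnk
      linarith
    linarith
  have halim : Tendsto a atTop (𝓝 1) := tends_an.congr fun n => (ha n).symm
  have han : ∀ n, ‖((a n : ℝ) : 𝕜)‖ = a n := fun n => by
    rw [RCLike.norm_ofReal, abs_of_pos (ha0 n)]
  obtain ⟨z, hz⟩ : ∃ z : ℕ → E, ∀ n, z n = ((a n : ℝ) : 𝕜) • (u + t n) := ⟨_, fun _ => rfl⟩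
  obtain ⟨Z, hZ⟩ : ∃ Z, Z = ‖u‖ + 2 / δ * D := ⟨_, rfl⟩
  have hZ0 : 0 ≤ Z := by
    rw [hZ]
    positivity
  have hzZ : ∀ n, ‖z n‖ ≤ Z := by
    intro n
    rw [hz, norm_smul, han]
    have h1 : ‖u + t n‖ ≤ Z := by
      rw [hZ]
      exact (norm_add_le _ _).trans (add_le_add le_rfl (htD n))
    have h2 := norm_nonneg (u + t n)
    nlinarith [ha1 n, ha0 n]
  have hSz : ∀ n, ‖S (z n)‖ = a n := fun n => by
    rw [hz, map_smul, norm_smul, han, map_add, hSu, zero_add, hSt, mul_one]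
  have huz : ∀ n, us (z n) = ((a n : ℝ) : 𝕜) := fun n => by
    rw [hz, map_smul, map_add, hus, htu, add_zero, smul_eq_mul, mul_one]
  -- the new norm
  obtain ⟨R, hR⟩ : ∃ R, R = 2 * (‖S‖ + 1) := ⟨_, rfl⟩
  have hSn := norm_nonneg S
  have hR0 : 0 < R := by
    rw [hR]
    linarith
  obtain ⟨Q, hQ⟩ : ∃ Q : Set (StrongDual 𝕜 E), Q = {φ | ‖φ‖ ≤ R ∧ ∀ n, ‖φ (z n)‖ ≤ 1} :=
    ⟨_, rfl⟩
  obtain ⟨E', _, _, e, he⟩ := hRED E Q (min R (1 / (Z + 1))) R (lt_min hR0 (by positivity))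
    (by
      intro φ hφ
      rw [hQ]
      refine ⟨hφ.trans (min_le_left _ _), fun n => ?_⟩
      have h1 : ‖φ‖ ≤ 1 / (Z + 1) := hφ.trans (min_le_right _ _)
      refine (φ.le_opNorm _).trans ((mul_le_mul h1 (hzZ n) (norm_nonneg _) (by positivity)).trans
        ?_)
      rw [one_div_mul_eq_div, div_le_one (by positivity)]
      linarith)
    (by
      intro φ hφ
      rw [hQ] at hφ
      exact hφ.1)
  obtain ⟨S', hS'⟩ : ∃ S' : E' →L[𝕜] F, ∀ v, S' v = S (e v) :=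
    ⟨S.comp (e : E' →L[𝕜] E), fun _ => rfl⟩
  have hnorming : ∀ v : F, ∃ w : StrongDual 𝕜 F, ‖w‖ ≤ 1 ∧ ‖w v‖ = ‖v‖ := by
    intro v
    obtain ⟨w, hw1, hw2⟩ := exists_dual_vector'' 𝕜 v
    refine ⟨w, hw1, ?_⟩
    rw [hw2, RCLike.norm_ofReal, abs_of_nonneg (norm_nonneg _)]
  have hwS : ∀ w : StrongDual 𝕜 F, ‖w‖ ≤ 1 → ‖w.comp S‖ ≤ ‖S‖ := fun w hw => by
    refine (ContinuousLinearMap.opNorm_comp_le _ _).trans ?_
    exact mul_le_of_le_one_left hSn hw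
  have hwz : ∀ w : StrongDual 𝕜 F, ‖w‖ ≤ 1 → ∀ n, ‖(w.comp S) (z n)‖ ≤ a n := fun w hw n => by
    show ‖w (S (z n))‖ ≤ a n
    refine (w.le_opNorm _).trans ?_
    rw [hSz]
    exact mul_le_of_le_one_left (ha0 n).le hw
  have hS'le : ∀ v : E', ‖S' v‖ ≤ ‖v‖ := by
    intro v
    obtain ⟨w, hw1, hw2⟩ := hnorming (S' v)
    rw [← hw2, hS']
    refine (he v).1 (w.comp S) ?_
    rw [hQ]
    refine ⟨(hwS w hw1).trans ?_, fun n => (hwz w hw1 n).trans (ha1 n).le⟩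
    rw [hR]
    linarith
  obtain ⟨z', hz'⟩ : ∃ z' : ℕ → E', ∀ n, z' n = e.symm (z n) := ⟨_, fun _ => rfl⟩
  have hez : ∀ n, e (z' n) = z n := fun n => by rw [hz', e.apply_symm_apply]
  have hz'1 : ∀ n, ‖z' n‖ ≤ 1 := by
    intro n
    refine (he (z' n)).2 1 fun φ hφ => ?_
    rw [hQ] at hφ
    rw [hez]
    exact hφ.2 n
  have hS'z : ∀ n, ‖S' (z' n)‖ = a n := fun n => by rw [hS', hez, hSz]
  have hz'a : ∀ n, a n ≤ ‖z' n‖ := fun n => by
    rw [← hS'z n]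
    exact hS'le _
  have hS'1 : ‖S'‖ = 1 := by
    refine le_antisymm (S'.opNorm_le_bound zero_le_one fun v => by rw [one_mul]; exact hS'le v) ?_
    refine le_of_tendsto halim (Eventually.of_forall fun n => ?_)
    rw [← hS'z n]
    refine (S'.le_opNorm _).trans ?_
    exact mul_le_of_le_one_right (norm_nonneg _) (hz'1 n)
  -- the maximizing sequence
  have hz'0 : ∀ n, 0 < ‖z' n‖ := fun n => lt_of_lt_of_le (ha0 n) (hz'a n)
  obtain ⟨v, hv⟩ : ∃ v : ℕ → E', ∀ n, v n = ((‖z' n‖⁻¹ : ℝ) : 𝕜) • z' n := ⟨_, fun _ => rfl⟩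
  have hinvn : ∀ n, ‖((‖z' n‖⁻¹ : ℝ) : 𝕜)‖ = ‖z' n‖⁻¹ := fun n => by
    rw [RCLike.norm_ofReal, abs_of_pos (inv_pos.2 (hz'0 n))]
  have hv1 : ∀ n, ‖v n‖ = 1 := fun n => by
    rw [hv, norm_smul, hinvn, inv_mul_cancel₀ (hz'0 n).ne']
  have hratio : Tendsto (fun n => ‖z' n‖⁻¹ * a n) atTop (𝓝 1) := by
    refine tendsto_of_tendsto_of_tendsto_of_le_of_le halim tendsto_const_nhds (fun n => ?_)
      fun n => ?_
    · have h1 : 1 ≤ ‖z' n‖⁻¹ := (one_le_inv₀ (hz'0 n)).2 (hz'1 n)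
      exact le_mul_of_one_le_left (ha0 n).le h1
    · show ‖z' n‖⁻¹ * a n ≤ 1
      rw [inv_mul_le_iff₀ (hz'0 n), mul_one]
      exact hz'a n
  have hSv : ∀ n, ‖S' (v n)‖ = ‖z' n‖⁻¹ * a n := fun n => by
    rw [hv, map_smul, norm_smul, hinvn, hS'z]
  have hmax : IsMaximizing S' v := ⟨hv1, by
    rw [hS'1]
    exact hratio.congr fun n => (hSv n).symm⟩
  have hnw : ¬ WeaklyNull 𝕜 v := by
    intro hw
    have h1 := (hw (us.comp (e : E' →L[𝕜] E))).norm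
    rw [norm_zero] at h1
    have h2 : Tendsto (fun n => ‖z' n‖⁻¹ * a n) atTop (𝓝 0) := by
      refine h1.congr fun n => ?_
      show ‖us (e (v n))‖ = _
      rw [hv, map_smul, map_smul, norm_smul, hinvn, hez, huz, han]
    exact zero_ne_one (tendsto_nhds_unique h2 hratio)
  obtain ⟨p, hp1, hp2⟩ := hAWD E' ⟨e⟩ S' ⟨v, hmax, hnw⟩
  -- the contradiction
  rw [hS'1] at hp2
  obtain ⟨w, hw1, hw2⟩ := hnorming (S' p)
  rw [hp2] at hw2
  have hlim : Tendsto (fun n => ‖(w.comp S) (z n)‖) atTop (𝓝 0) := by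
    have h1 := (htw (w.comp S)).norm
    rw [norm_zero] at h1
    refine squeeze_zero (fun n => norm_nonneg _) (fun n => ?_) h1
    show ‖w (S (z n))‖ ≤ ‖w (S (t n))‖
    rw [hz, map_smul, map_smul, norm_smul, han, map_add, hSu, zero_add]
    exact mul_le_of_le_one_left (norm_nonneg _) (ha1 n).le
  obtain ⟨N, hN⟩ := eventually_atTop.1
    (hlim.eventually_le_const (show (0 : ℝ) < 1 / 2 by norm_num))
  have hall : ∀ n, ‖(w.comp S) (z n)‖ ≤ a N := by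
    intro n
    rcases le_or_gt N n with h | h
    · exact (hN n h).trans (ha2 N)
    · exact (hwz w hw1 n).trans (hamono _ _ h.le)
  have hinva : ‖((((a N)⁻¹ : ℝ)) : 𝕜)‖ = (a N)⁻¹ := by
    rw [RCLike.norm_ofReal, abs_of_pos (inv_pos.2 (ha0 N))]
  have hmem : ((((a N)⁻¹ : ℝ)) : 𝕜) • w.comp S ∈ Q := by
    rw [hQ]
    constructor
    · rw [norm_smul, hinva, hR]
      have h1 : (a N)⁻¹ ≤ 2 := by
        rw [inv_le_comm₀ (ha0 N) (by norm_num)]
        have := ha2 N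
        linarith
      have h2 := mul_le_mul h1 (hwS w hw1) (norm_nonneg _) (by norm_num)
      linarith
    · intro n
      show ‖((((a N)⁻¹ : ℝ)) : 𝕜) • (w.comp S) (z n)‖ ≤ 1
      rw [norm_smul, hinva, inv_mul_le_iff₀ (ha0 N), mul_one]
      exact hall n
  have hfin := (he p).1 _ hmem
  have h1 : ‖(((((a N)⁻¹ : ℝ)) : 𝕜) • w.comp S) (e p)‖ = (a N)⁻¹ := by
    show ‖((((a N)⁻¹ : ℝ)) : 𝕜) • w (S (e p))‖ = _
    rw [norm_smul, hinva, ← hS', hw2, mul_one]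
  rw [h1, hp1] at hfin
  have h2 : 1 < (a N)⁻¹ := (one_lt_inv₀ (ha0 N)).2 (ha1 N)
  linarith

end Pool.Agent.H20.WR
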