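import Pool.Agent.H88.WR.Targets

/-!
# Row TNE of wmr_modules: the norm of a family of finite sets

The norm is the supremum of the values of the trees.
-/

set_option autoImplicit false

namespace Pool.Agent.H20.WR

open Filter Topology Set Pool.Agent.H85.WMP Pool.Agent.H88.WR

/-- trees -/
inductive Tre (M : Set (Finset ℕ)) : Type
  | leaf (i : ℕ) : Tre M
  | node (A : Finset ℕ) (hA : A ∈ M) (c : ℕ → Tre M) : Tre M

section

variable {𝕜 : Type} [RCLike 𝕜] {M : Set (Finset ℕ)}

/-- the value of a tree -/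
noncomputable def val : Tre M → (ℕ →₀ 𝕜) → ℝ
  | .leaf i, x => ‖x i‖
  | .node A _ c, x => (1 / 2) * ∑ a ∈ A, val (c a) (x.filter (Cell A a))

/-- the norm of `l¹` -/
noncomputable def l1 (x : ℕ →₀ 𝕜) : ℝ := ∑ i ∈ x.support, ‖x i‖

theorem l1_nonneg (x : ℕ →₀ 𝕜) : 0 ≤ l1 x := Finset.sum_nonneg fun _ _ => norm_nonneg _

theorem l1_filter (x : ℕ →₀ 𝕜) (p : ℕ → Prop) [DecidablePred p] :
    l1 (x.filter p) = ∑ i ∈ x.support, if p i then ‖x i‖ else 0 := by
  unfold l1
  rw [Finsupp.support_filter, ← Finset.sum_filter]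
  refine Finset.sum_congr rfl fun i hi => ?_
  rw [Finsupp.filter_apply_pos p x (Finset.mem_filter.1 hi).2]

theorem cells (A : Finset ℕ) (x : ℕ →₀ 𝕜) :
    ∑ a ∈ A, l1 (x.filter (Cell A a)) ≤ l1 x := by
  simp only [l1_filter]
  rw [Finset.sum_comm]
  refine Finset.sum_le_sum fun i _ => ?_
  by_cases h : ∃ a ∈ A, Cell A a i
  · obtain ⟨a, ha, hc⟩ := h
    rw [Finset.sum_eq_single a]
    · rw [if_pos hc]
    · intro b hb hba
      rw [if_neg]
      intro hcb
      exact hba (le_antisymm (hc.2 b hb hcb.1) (hcb.2 a ha hc.1))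
    · intro h
      exact absurd ha h
  · rw [Finset.sum_eq_zero]
    · exact norm_nonneg _
    · intro a ha
      rw [if_neg fun hc => h ⟨a, ha, hc⟩]

theorem val_le (T : Tre M) : ∀ x : ℕ →₀ 𝕜, val T x ≤ l1 x := by
  induction T with
  | leaf i =>
    intro x
    show ‖x i‖ ≤ l1 x
    by_cases hi : i ∈ x.support
    · exact Finset.single_le_sum (f := fun i => ‖x i‖) (fun _ _ => norm_nonneg _) hi
    · rw [Finsupp.notMem_support_iff.1 hi, norm_zero]
      exact l1_nonneg x
  | node A hA c ih =>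
    intro x
    show (1 / 2) * ∑ a ∈ A, val (c a) (x.filter (Cell A a)) ≤ l1 x
    have h1 : ∑ a ∈ A, val (c a) (x.filter (Cell A a)) ≤ ∑ a ∈ A, l1 (x.filter (Cell A a)) :=
      Finset.sum_le_sum fun a _ => ih a _
    have h2 := cells A x
    have h3 := l1_nonneg x
    linarith

theorem val_add (T : Tre M) : ∀ x y : ℕ →₀ 𝕜, val T (x + y) ≤ val T x + val T y := by
  induction T with
  | leaf i =>
    intro x y
    exact norm_add_le _ _
  | node A hA c ih =>
    intro x y
    show (1 / 2) * ∑ a ∈ A, val (c a) ((x + y).filter (Cell A a)) ≤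
      (1 / 2) * ∑ a ∈ A, val (c a) (x.filter (Cell A a)) +
      (1 / 2) * ∑ a ∈ A, val (c a) (y.filter (Cell A a))
    rw [← mul_add, ← Finset.sum_add_distrib]
    refine mul_le_mul_of_nonneg_left (Finset.sum_le_sum fun a _ => ?_) (by norm_num)
    rw [Finsupp.filter_add]
    exact ih a _ _

theorem val_smul (T : Tre M) : ∀ (c : 𝕜) (x : ℕ →₀ 𝕜), val T (c • x) = ‖c‖ * val T x := by
  induction T with
  | leaf i =>
    intro c x
    show ‖c * x i‖ = ‖c‖ * ‖x i‖
    exact norm_mul _ _
  | node A hA d ih =>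
    intro c x
    show (1 / 2) * ∑ a ∈ A, val (d a) ((c • x).filter (Cell A a)) =
      ‖c‖ * ((1 / 2) * ∑ a ∈ A, val (d a) (x.filter (Cell A a)))
    have h1 : ∀ a ∈ A, val (d a) ((c • x).filter (Cell A a)) =
        ‖c‖ * val (d a) (x.filter (Cell A a)) := fun a _ => by
      rw [Finsupp.filter_smul, ih a]
    rw [Finset.sum_congr rfl h1, ← Finset.mul_sum]
    ring

theorem val_filter (T : Tre M) : ∀ (p : ℕ → Prop) [DecidablePred p] (x : ℕ →₀ 𝕜),
    val T (x.filter p) ≤ val T x := by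
  induction T with
  | leaf i =>
    intro p _ x
    show ‖x.filter p i‖ ≤ ‖x i‖
    rw [Finsupp.filter_apply]
    split_ifs
    · exact le_rfl
    · rw [norm_zero]
      exact norm_nonneg _
  | node A hA d ih =>
    intro p _ x
    show (1 / 2) * ∑ a ∈ A, val (d a) ((x.filter p).filter (Cell A a)) ≤
      (1 / 2) * ∑ a ∈ A, val (d a) (x.filter (Cell A a))
    refine mul_le_mul_of_nonneg_left (Finset.sum_le_sum fun a _ => ?_) (by norm_num)
    have e : (x.filter p).filter (Cell A a) = (x.filter (Cell A a)).filter p := by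
      ext i
      simp only [Finsupp.filter_apply]
      split_ifs <;> rfl
    rw [e]
    exact ih a p _

theorem bdd (x : ℕ →₀ 𝕜) : BddAbove (range fun T : Tre M => val T x) :=
  ⟨l1 x, by
    rintro _ ⟨T, rfl⟩
    exact val_le T x⟩

instance : Nonempty (Tre M) := ⟨.leaf 0⟩

end

theorem pf_TNE (𝕜 : Type) [RCLike 𝕜] : T_TNE 𝕜 := by
  intro M _
  have le : ∀ (T : Tre M) (x : ℕ →₀ 𝕜), val T x ≤ ⨆ T : Tre M, val T x := fun T x =>
    le_ciSup (bdd x) T
  refine ⟨fun x => ⨆ T : Tre M, val T x, ?_, ?_, ?_, ?_, ?_, ?_, ?_⟩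
  · intro x y
    exact ciSup_le fun T => (val_add T x y).trans (add_le_add (le T x) (le T y))
  · intro c x
    show (⨆ T : Tre M, val T (c • x)) = ‖c‖ * ⨆ T : Tre M, val T x
    rw [Real.mul_iSup_of_nonneg (norm_nonneg c)]
    simp only [val_smul]
  · intro x i
    exact le (.leaf i) x
  · intro i
    refine ciSup_le fun T => (val_le T _).trans ?_
    unfold l1
    rw [Finsupp.support_single_ne_zero i (one_ne_zero' 𝕜), Finset.sum_singleton,
      Finsupp.single_eq_same, norm_one]
  · intro p _ x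
    exact ciSup_le fun T => (val_filter T p x).trans (le T x)
  · intro A hA x
    refine le_of_forall_pos_le_add fun ε hε => ?_
    have hch : ∀ a : ℕ, ∃ T : Tre M, (⨆ T : Tre M, val T (x.filter (Cell A a))) -
        ε / (A.card + 1) < val T (x.filter (Cell A a)) := fun a =>
      exists_lt_of_lt_ciSup (sub_lt_self _ (by positivity))
    choose c hc using hch
    have h1 := le (.node A hA c) x
    have h2 : val (.node A hA c) x = (1 / 2) * ∑ a ∈ A, val (c a) (x.filter (Cell A a)) := rfl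
    have h3 : ∑ a ∈ A, ((⨆ T : Tre M, val T (x.filter (Cell A a))) - ε / (A.card + 1)) ≤
        ∑ a ∈ A, val (c a) (x.filter (Cell A a)) := Finset.sum_le_sum fun a _ => (hc a).le
    rw [Finset.sum_sub_distrib, Finset.sum_const, nsmul_eq_mul] at h3
    have h4 : (A.card : ℝ) * (ε / (A.card + 1)) ≤ ε := by
      rw [mul_div_assoc', div_le_iff₀ (by positivity)]
      nlinarith
    rw [h2] at h1
    show ∑ a ∈ A, (⨆ T : Tre M, val T (x.filter (Cell A a))) ≤
      2 * (⨆ T : Tre M, val T x) + ε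
    linarith
  · intro x c hc hA
    refine ciSup_le fun T => ?_
    cases T with
    | leaf i => exact hc i
    | node A hAM d =>
      show (1 / 2) * ∑ a ∈ A, val (d a) (x.filter (Cell A a)) ≤ c
      have h1 : ∑ a ∈ A, val (d a) (x.filter (Cell A a)) ≤
          ∑ a ∈ A, ⨆ T : Tre M, val T (x.filter (Cell A a)) :=
        Finset.sum_le_sum fun a _ => le (d a) _
      have h2 := hA A hAM
      have h3 : ∑ a ∈ A, (⨆ T : Tre M, val T (x.filter (Cell A a))) ≤ 2 * c := h2
      linarith

end Pool.Agent.H20.WR
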